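import Pool.Agent.Helper66.HK.Stmts

/-! Module CC of the table hk_mods: the cube of a system with an absorbed noise. -/

namespace Pool.Agent.Helper66.HK

open Finset Pool.Agent.Helper69.RK

/-- entropies depend only on the values on the support -/
theorem cc_congr (h2 : ST_E2) {Ω α γ : Type} [Fintype Ω] {μ : Ω → ℝ} (hμ : ∀ ω, 0 ≤ μ ω)
    {f f' : Ω → α} {g g' : Ω → γ} (hf : ∀ ω, μ ω ≠ 0 → f ω = f' ω)
    (hg : ∀ ω, μ ω ≠ 0 → g ω = g' ω) : CH μ f g = CH μ f' g' := by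
  obtain ⟨e1, e2, _⟩ := h2
  apply le_antisymm
  · refine le_trans (e1 Ω α α γ μ f f' g hμ ?_) (e2 Ω α γ γ μ f' g' g hμ ?_)
    · intro ω ω' h h' hh
      rw [hf ω h, hf ω' h']; exact (Prod.mk.inj hh).1
    · intro ω ω' h h' hh
      rw [← hg ω h, ← hg ω' h']; exact hh
  · refine le_trans (e1 Ω α α γ μ f' f g' hμ ?_) (e2 Ω α γ γ μ f g g' hμ ?_)
    · intro ω ω' h h' hh
      rw [← hf ω h, ← hf ω' h']; exact (Prod.mk.inj hh).1
    · intro ω ω' h h' hh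
      rw [hg ω h, hg ω' h']; exact hh

/-- equivalent conditions -/
theorem cc_cond (h2 : ST_E2) {Ω α γ γ' : Type} [Fintype Ω] {μ : Ω → ℝ} (hμ : ∀ ω, 0 ≤ μ ω)
    {f : Ω → α} {g : Ω → γ} {g' : Ω → γ'} (h : Dep μ g g') (h' : Dep μ g' g) :
    CH μ f g = CH μ f g' :=
  le_antisymm (h2.2.1 Ω α γ' γ μ f g' g hμ h) (h2.2.1 Ω α γ γ' μ f g g' hμ h')

/-- equivalent functions -/
theorem cc_fun (h2 : ST_E2) {Ω α α' γ : Type} [Fintype Ω] {μ : Ω → ℝ} (hμ : ∀ ω, 0 ≤ μ ω)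
    {f : Ω → α} {f' : Ω → α'} {g : Ω → γ} (h : Dep μ (fun ω => (f' ω, g ω)) f)
    (h' : Dep μ (fun ω => (f ω, g ω)) f') : CH μ f g = CH μ f' g :=
  le_antisymm (h2.1 Ω α α' γ μ f f' g hμ h) (h2.1 Ω α' α γ μ f' f g hμ h')

/-- a noise is almost independent of the line, given everything else -/
theorem cc_noise (h1 : ST_E1) (h2 : ST_E2) {Ω ξ θ δ ζ lam : Type} [Fintype Ω] {μ : Ω → ℝ}
    (hμ : ∀ ω, 0 ≤ μ ω) (X : Ω → ξ) (Θ : Ω → θ) (Λ : Ω → lam) (t : Ω → δ) (Z : Ω → ζ) :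
    CH μ Λ (fun ω => (Θ ω, t ω, Z ω)) -
      MI μ X (fun ω => (Θ ω, Λ ω)) (fun ω => (t ω, Z ω)) ≤
      CH μ Λ (fun ω => (X ω, (Θ ω, t ω), Z ω)) := by
  have c1 := (h1 Ω ξ lam (θ × δ × ζ) μ X Λ (fun ω => (Θ ω, t ω, Z ω)) hμ).2.1
  have c2 := (h1 Ω lam ξ (θ × δ × ζ) μ Λ X (fun ω => (Θ ω, t ω, Z ω)) hμ).2.1
  have c3 : CH μ (fun ω => (X ω, Λ ω)) (fun ω => (Θ ω, t ω, Z ω)) =
      CH μ (fun ω => (Λ ω, X ω)) (fun ω => (Θ ω, t ω, Z ω)) := by
    refine cc_fun h2 hμ ?_ ?_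
    · intro ω ω' _ _ hh
      simp only [Prod.mk.injEq] at hh ⊢
      exact ⟨hh.1.2, hh.1.1⟩
    · intro ω ω' _ _ hh
      simp only [Prod.mk.injEq] at hh ⊢
      exact ⟨hh.1.2, hh.1.1⟩
  have c4 := (h1 Ω ξ θ (δ × ζ) μ X Θ (fun ω => (t ω, Z ω)) hμ).2.2
  have c5 : CH μ X (fun ω => (Λ ω, Θ ω, t ω, Z ω)) =
      CH μ X (fun ω => ((Θ ω, Λ ω), t ω, Z ω)) := by
    refine cc_cond h2 hμ ?_ ?_
    · intro ω ω' _ _ hh
      simp only [Prod.mk.injEq] at hh ⊢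
      tauto
    · intro ω ω' _ _ hh
      simp only [Prod.mk.injEq] at hh ⊢
      tauto
  have c6 : CH μ Λ (fun ω => (X ω, Θ ω, t ω, Z ω)) =
      CH μ Λ (fun ω => (X ω, (Θ ω, t ω), Z ω)) := by
    refine cc_cond h2 hμ ?_ ?_
    · intro ω ω' _ _ hh
      simp only [Prod.mk.injEq] at hh ⊢
      tauto
    · intro ω ω' _ _ hh
      simp only [Prod.mk.injEq] at hh ⊢
      tauto
  unfold MI
  rw [← c6, ← c5]
  linarith

/-- the first `w` digits of a height take at most `2 ^ w` values -/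
theorem cc_digits (h2 : ST_E2) (h3 : ST_E3) {Ω γ : Type} [Fintype Ω] {μ : Ω → ℝ}
    (hμ : ∀ ω, 0 ≤ μ ω) (hm : mass μ = 1) (t : Ω → ℝ) (ht : ∀ ω, 0 ≤ t ω ∧ t ω < 1) (n w : ℕ)
    (hwn : w ≤ n) (g : Ω → γ) :
    CH μ (fun ω => hn n (t ω) / ((2 ^ (n - w) : ℕ) : ℤ)) g ≤ w := by
  have hN : (0 : ℤ) < ((2 ^ (n - w) : ℕ) : ℤ) := by positivity
  have hval : ∀ ω, 0 ≤ hn n (t ω) / ((2 ^ (n - w) : ℕ) : ℤ) ∧
      hn n (t ω) / ((2 ^ (n - w) : ℕ) : ℤ) ≤ 2 ^ w - 1 := by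
    intro ω
    have h0 : 0 ≤ hn n (t ω) := by
      unfold hn
      apply Int.floor_nonneg.2
      have := (ht ω).1
      positivity
    have h4 : hn n (t ω) < 2 ^ n := by
      unfold hn
      rw [Int.floor_lt]
      push_cast
      have h5 : (2 : ℝ) ^ n * t ω < 2 ^ n * 1 := mul_lt_mul_of_pos_left (ht ω).2 (by positivity)
      linarith
    refine ⟨Int.ediv_nonneg h0 hN.le, ?_⟩
    have h6 : hn n (t ω) / ((2 ^ (n - w) : ℕ) : ℤ) < 2 ^ w := by
      rw [Int.ediv_lt_iff_lt_mul hN]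
      refine lt_of_lt_of_le h4 (le_of_eq ?_)
      push_cast
      rw [← pow_add]
      congr 1
      omega
    omega
  have h7 := h3.2 Ω γ 1 μ (fun ω _ => hn n (t ω) / ((2 ^ (n - w) : ℕ) : ℤ)) g (2 ^ w - 1) hμ (by
      have : (1 : ℝ) ≤ 2 ^ w := one_le_pow₀ (by norm_num)
      linarith) (by
      intro ω ω' _ _ _ i
      have a1 := hval ω
      have a2 := hval ω'
      have b1 : (0 : ℝ) ≤ ((hn n (t ω) / ((2 ^ (n - w) : ℕ) : ℤ) : ℤ) : ℝ) := by
        exact_mod_cast a1.1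
      have b2 : ((hn n (t ω) / ((2 ^ (n - w) : ℕ) : ℤ) : ℤ) : ℝ) ≤ 2 ^ w - 1 := by
        have := a1.2
        have h8 : ((hn n (t ω) / ((2 ^ (n - w) : ℕ) : ℤ) : ℤ) : ℝ) ≤ ((2 ^ w - 1 : ℤ) : ℝ) := by
          exact_mod_cast this
        push_cast at h8 ⊢
        exact h8
      have b3 : (0 : ℝ) ≤ ((hn n (t ω') / ((2 ^ (n - w) : ℕ) : ℤ) : ℤ) : ℝ) := by
        exact_mod_cast a2.1
      have b4 : ((hn n (t ω') / ((2 ^ (n - w) : ℕ) : ℤ) : ℤ) : ℝ) ≤ 2 ^ w - 1 := by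
        have := a2.2
        have h8 : ((hn n (t ω') / ((2 ^ (n - w) : ℕ) : ℤ) : ℤ) : ℝ) ≤ ((2 ^ w - 1 : ℤ) : ℝ) := by
          exact_mod_cast this
        push_cast at h8 ⊢
        exact h8
      rw [abs_le]
      constructor <;> linarith)
  rw [hm, sub_add_cancel, mul_one, Nat.cast_one, one_mul, Real.logb_pow,
    Real.logb_self_eq_one (by norm_num), mul_one] at h7
  refine le_trans (h2.1 Ω ℤ (Fin 1 → ℤ) γ μ _ (fun ω _ => hn n (t ω) / ((2 ^ (n - w) : ℕ) : ℤ)) g hμ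
    ?_) h7
  intro ω ω' _ _ hh
  exact congrFun (Prod.mk.inj hh).1 0

/-- heights with the same first digits -/
theorem cc_height (n w : ℕ) (hwn : w ≤ n) (s t : ℝ)
    (h : hn n s / ((2 ^ (n - w) : ℕ) : ℤ) = hn n t / ((2 ^ (n - w) : ℕ) : ℤ)) :
    |t - s| * 2 ^ w ≤ 1 ∧ |hn n s - hn n t| ≤ 2 ^ (n - w) := by
  have hN : (0 : ℤ) < ((2 ^ (n - w) : ℕ) : ℤ) := by positivity
  obtain ⟨N, hNN⟩ : ∃ N : ℤ, N = ((2 ^ (n - w) : ℕ) : ℤ) := ⟨_, rfl⟩
  rw [← hNN] at h hN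
  obtain ⟨q, hq⟩ : ∃ q : ℤ, q = hn n s / N := ⟨_, rfl⟩
  have a1 : q * N ≤ hn n s := by rw [hq]; exact Int.ediv_mul_le _ hN.ne'
  have a2 : hn n s < (q + 1) * N := by rw [hq]; exact Int.lt_ediv_add_one_mul_self _ hN
  have b1 : q * N ≤ hn n t := by rw [hq, h]; exact Int.ediv_mul_le _ hN.ne'
  have b2 : hn n t < (q + 1) * N := by rw [hq, h]; exact Int.lt_ediv_add_one_mul_self _ hN
  have hNp : N = 2 ^ (n - w) := by rw [hNN]; push_cast; rfl
  constructor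
  · have e1 : (hn n s : ℝ) ≤ 2 ^ n * s := Int.floor_le _
    have e2 : (2 : ℝ) ^ n * s < hn n s + 1 := Int.lt_floor_add_one _
    have e3 : (hn n t : ℝ) ≤ 2 ^ n * t := Int.floor_le _
    have e4 : (2 : ℝ) ^ n * t < hn n t + 1 := Int.lt_floor_add_one _
    have a2' : (hn n s : ℝ) + 1 ≤ (q + 1) * N := by
      have : hn n s + 1 ≤ (q + 1) * N := a2
      exact_mod_cast this
    have b2' : (hn n t : ℝ) + 1 ≤ (q + 1) * N := by
      have : hn n t + 1 ≤ (q + 1) * N := b2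
      exact_mod_cast this
    have a1' : (q : ℝ) * N ≤ hn n s := by exact_mod_cast a1
    have b1' : (q : ℝ) * N ≤ hn n t := by exact_mod_cast b1
    have hNr : (N : ℝ) = 2 ^ (n - w) := by rw [hNp]; push_cast; rfl
    have hpow : (2 : ℝ) ^ n = 2 ^ w * 2 ^ (n - w) := by
      rw [← pow_add]; congr 1; omega
    have h5 : |t - s| * 2 ^ n ≤ 2 ^ (n - w) := by
      rw [← abs_of_pos (show (0 : ℝ) < 2 ^ n by positivity), ← abs_mul, abs_le]
      constructor <;> nlinarith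
    rw [hpow] at h5
    have h6 : (|t - s| * 2 ^ w) * 2 ^ (n - w) ≤ 1 * 2 ^ (n - w) := by
      rw [one_mul, mul_assoc]; exact h5
    exact le_of_mul_le_mul_right h6 (by positivity)
  · rw [← hNp, abs_le]
    constructor <;> nlinarith

theorem st_CC (hC : ST_CUB) (h1 : ST_E1) (h2 : ST_E2) (h3 : ST_E3) (h5 : ST_E5) : ST_CC := by
  intro m L n w η Ω ζ θ _ μ Z a x t Θ Λ hwn hS hMI
  have hμ := hS.nn
  obtain ⟨Ω', fΩ', μ', κ, c1, c2, c3, c4, c5, c6⟩ :=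
    hC L Ω (ζ × (Fin m → ℝ) × (Fin m → ℝ)) μ (fun ω => (Z ω, a ω, x ω)) (fun ω => hn n (t ω))
      (2 ^ (n - w)) hμ hS.ms Nat.one_le_two_pow
  have hpush : ∀ (S : Finset (Fin L)) (α β : Type) (f : Ω → α) (g : Ω → β),
      CH μ' (fun v => f (κ S v)) (fun v => g (κ S v)) = CH μ f g := by
    intro S α β f g
    have := (h5.1 Ω Ω' α β μ' (κ S) f g c1).2.2
    rw [c2 S] at this
    exact this.symm
  have hmass : mass μ' = 1 := by
    have := (h5.1 Ω Ω' ℝ ℝ μ' (κ ∅) t t c1).2.1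
    rw [c2 ∅, hS.ms] at this
    exact this.symm
  have hZ : ∀ v, μ' v ≠ 0 → ∀ S, Z (κ S v) = Z (κ ∅ v) ∧ a (κ S v) = a (κ ∅ v) ∧
      x (κ S v) = x (κ ∅ v) := by
    intro v hv S
    have := (c3 v hv S).2.1
    simp only [Prod.mk.injEq] at this
    exact this
  have hX0 : ∀ (S : Finset (Fin L)) (α β : Type) (f : ζ → (Fin m → ℝ) → (Fin m → ℝ) → Ω → α)
      (g : ζ → (Fin m → ℝ) → (Fin m → ℝ) → Ω → β),
      CH μ' (fun v => f (Z (κ ∅ v)) (a (κ ∅ v)) (x (κ ∅ v)) (κ S v))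
        (fun v => g (Z (κ ∅ v)) (a (κ ∅ v)) (x (κ ∅ v)) (κ S v)) =
      CH μ (fun ω => f (Z ω) (a ω) (x ω) ω) (fun ω => g (Z ω) (a ω) (x ω) ω) := by
    intro S α β f g
    rw [← hpush S]
    refine cc_congr h2 c1 ?_ ?_
    · intro v hv
      obtain ⟨e1, e2, e3⟩ := hZ v hv S
      rw [e1, e2, e3]
    · intro v hv
      obtain ⟨e1, e2, e3⟩ := hZ v hv S
      rw [e1, e2, e3]
  refine ⟨Ω', fΩ', μ', fun v => Z (κ ∅ v), fun v => a (κ ∅ v), fun v => x (κ ∅ v),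
    fun S v => t (κ S v), fun S v => Θ (κ S v), fun S v => Λ (κ S v), ?_, ?_, ?_, ?_, ?_, ?_, ?_, ?_⟩
  · -- systems
    intro S
    refine ⟨c1, hmass, fun v i => hS.ab _ i, fun v i => hS.xb _ i, fun v => hS.tb _, ?_, ?_, ?_⟩
    · intro k hk
      have e := hS.st k hk
      unfold MI at e ⊢
      rw [hpush ∅ (Fin m → ℤ) ((Fin m → ℤ) × ζ) (fun ω => cel n (x ω))
        (fun ω => (cel k (x ω), Z ω)),
        hpush ∅ (Fin m → ℤ) ((Fin m → ℤ) × (Fin m → ℤ) × ζ) (fun ω => cel n (x ω))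
        (fun ω => (cel k (a ω), cel k (x ω), Z ω))]
      exact e
    · have e := hX0 S ℤ (((Fin m → ℝ) × (Fin m → ℝ)) × ζ) (fun _ _ _ ω => hn n (t ω))
        (fun z a' x' _ => ((a', x'), z))
      rw [e]
      exact hS.h1
    · have e := hS.h2
      unfold MI at e ⊢
      have e1 := hX0 S ((Fin m → ℝ) × (Fin m → ℝ)) ζ (fun _ a' x' _ => (a', x'))
        (fun z _ _ _ => z)
      have e2 := hX0 S ((Fin m → ℝ) × (Fin m → ℝ)) (ℝ × ζ) (fun _ a' x' _ => (a', x'))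
        (fun z _ _ ω => (t ω, z))
      rw [e1, e2]
      exact e
  · exact hpush ∅ (Fin m → ℤ) ζ (fun ω => cel n (x ω)) Z
  · intro S
    exact hX0 S (Fin m → ℤ) (θ × ℝ × ζ) (fun _ _ _ ω => Λ ω) (fun z _ _ ω => (Θ ω, t ω, z))
  · intro S
    exact hX0 S (Fin m → ℤ) (θ × ℝ × ζ) (fun _ a' x' ω => Yn n (t ω) a' x' (Λ ω))
      (fun z _ _ ω => (Θ ω, t ω, z))
  · -- conditional independence
    intro S
    have e := c4 (Fin m → ℤ) (((Fin m → ℝ) × (Fin m → ℝ)) × (θ × ℝ) × ζ) Λ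
      (fun ω => ((a ω, x ω), (Θ ω, t ω), Z ω)) (by
        intro ω ω' _ _ hh
        simp only [Prod.mk.injEq] at hh ⊢
        obtain ⟨⟨h6, h7⟩, ⟨_, h8⟩, h9⟩ := hh
        rw [h8]
        exact ⟨⟨h9, h6, h7⟩, rfl⟩) S
    have e2 := cc_noise h1 h2 hμ (fun ω => (a ω, x ω)) Θ Λ t Z
    rw [← e] at e2
    refine le_trans (le_trans (by linarith) e2) ?_
    refine h2.2.1 Ω' _ _ _ μ' _ _ _ c1 ?_
    intro v v' _ _ hh
    simp only [Prod.mk.injEq] at hh ⊢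
    obtain ⟨h6, h7⟩ := hh
    have h8 := fun S' => congrFun h7 S'
    simp only [Prod.mk.injEq] at h8
    refine ⟨h6, (h8 ∅).1, ?_, (h8 ∅).2.2⟩
    funext S'
    exact Prod.ext (h8 S').2.1.1 (h8 S').2.1.2
  · -- mutual information
    have e := c5 ζ ((θ × ℝ) × (Fin m → ℤ)) Z (fun ω => ((Θ ω, t ω), Λ ω)) (by
        intro ω ω' _ _ hh
        simp only [Prod.mk.injEq] at hh
        exact hh.1) (by
        intro ω ω' _ _ hh
        simp only [Prod.mk.injEq] at hh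
        exact congrArg (hn n) hh.1.2)
    have e1 : MI μ (fun ω => (Z ω, a ω, x ω)) (fun ω => ((Θ ω, t ω), Λ ω)) Z ≤ 2 * (η * n) := by
      have d1 := hS.h2
      unfold MI at d1 hMI ⊢
      have d2 : CH μ (fun ω => (Z ω, a ω, x ω)) Z = CH μ (fun ω => (a ω, x ω)) Z := by
        refine cc_fun h2 hμ ?_ ?_
        · intro ω ω' _ _ hh
          simp only [Prod.mk.injEq] at hh ⊢
          tauto
        · intro ω ω' _ _ hh
          simp only [Prod.mk.injEq] at hh ⊢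
          tauto
      have d3 : CH μ (fun ω => (Z ω, a ω, x ω)) (fun ω => (((Θ ω, t ω), Λ ω), Z ω)) =
          CH μ (fun ω => (a ω, x ω)) (fun ω => (((Θ ω, t ω), Λ ω), Z ω)) := by
        refine cc_fun h2 hμ ?_ ?_
        · intro ω ω' _ _ hh
          simp only [Prod.mk.injEq] at hh ⊢
          tauto
        · intro ω ω' _ _ hh
          simp only [Prod.mk.injEq] at hh ⊢
          tauto
      have d4 : CH μ (fun ω => (a ω, x ω)) (fun ω => (((Θ ω, t ω), Λ ω), Z ω)) =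
          CH μ (fun ω => (a ω, x ω)) (fun ω => ((Θ ω, Λ ω), t ω, Z ω)) := by
        refine cc_cond h2 hμ ?_ ?_
        · intro ω ω' _ _ hh
          simp only [Prod.mk.injEq] at hh ⊢
          tauto
        · intro ω ω' _ _ hh
          simp only [Prod.mk.injEq] at hh ⊢
          tauto
      rw [d2, d3, d4]
      linarith
    have e2 : MI μ' (fun v => (a (κ ∅ v), x (κ ∅ v)))
        (fun v => ((fun S => (Θ (κ S v), t (κ S v))), (fun S => Λ (κ S v)))) (fun v => Z (κ ∅ v)) =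
        MI μ' (fun v => (Z (κ ∅ v), a (κ ∅ v), x (κ ∅ v)))
          (fun v S => ((Θ (κ S v), t (κ S v)), Λ (κ S v))) (fun v => Z (κ ∅ v)) := by
      unfold MI
      congr 1
      · refine cc_fun h2 c1 ?_ ?_
        · intro ω ω' _ _ hh
          simp only [Prod.mk.injEq] at hh ⊢
          tauto
        · intro ω ω' _ _ hh
          simp only [Prod.mk.injEq] at hh ⊢
          tauto
      · refine Eq.trans (cc_fun (f' := fun v => (Z (κ ∅ v), a (κ ∅ v), x (κ ∅ v))) h2 c1 ?_ ?_)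
          (cc_cond h2 c1 ?_ ?_)
        · intro ω ω' _ _ hh
          simp only [Prod.mk.injEq] at hh ⊢
          tauto
        · intro ω ω' _ _ hh
          simp only [Prod.mk.injEq] at hh ⊢
          tauto
        · intro ω ω' _ _ hh
          simp only [Prod.mk.injEq] at hh ⊢
          obtain ⟨⟨h6, h7⟩, h8⟩ := hh
          refine ⟨?_, h8⟩
          funext S
          have h9 := congrFun h6 S
          have h10 := congrFun h7 S
          exact Prod.ext h9 h10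
        · intro ω ω' _ _ hh
          simp only [Prod.mk.injEq] at hh ⊢
          obtain ⟨h6, h8⟩ := hh
          refine ⟨⟨?_, ?_⟩, h8⟩
          · funext S
            have h9 := congrFun h6 S
            exact (Prod.mk.inj h9).1
          · funext S
            have h9 := congrFun h6 S
            exact (Prod.mk.inj h9).2
    rw [e2]
    refine le_trans e ?_
    calc (2 : ℝ) ^ L * MI μ (fun ω => (Z ω, a ω, x ω)) (fun ω => ((Θ ω, t ω), Λ ω)) Z
        ≤ 2 ^ L * (2 * (η * n)) := mul_le_mul_of_nonneg_left e1 (by positivity)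
      _ = 2 ^ (L + 1) * (η * n) := by rw [pow_succ]; ring
  · -- support
    intro v hv S
    obtain ⟨_, _, h8, h9⟩ := c3 v hv S
    have h10 := cc_height n w hwn _ _ h8
    exact ⟨h10.1, h9, h10.2⟩
  · -- steps
    intro i
    have hη : 0 ≤ η * n := by
      have d1 := hS.h2
      have d2 := (h1 Ω ((Fin m → ℝ) × (Fin m → ℝ)) ℝ ζ μ (fun ω => (a ω, x ω)) t Z hμ).2.2
      unfold MI at d1
      linarith
    have hlog : Real.logb 2 ((2 ^ (n - w) : ℕ) : ℝ) = (n : ℝ) - w := by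
      push_cast
      rw [Real.logb_pow, Real.logb_self_eq_one (by norm_num), mul_one, Nat.cast_sub hwn]
    have e := c6 (η * n) hη (by
      rw [hlog]
      have d1 := (h1 Ω ℤ ℤ (ζ × (Fin m → ℝ) × (Fin m → ℝ)) μ
        (fun ω => hn n (t ω) / ((2 ^ (n - w) : ℕ) : ℤ)) (fun ω => hn n (t ω))
        (fun ω => (Z ω, a ω, x ω)) hμ).2.1
      have d2 := cc_digits h2 h3 hμ hS.ms t hS.tb n w hwn (fun ω => (Z ω, a ω, x ω))
      have d3 : CH μ (fun ω => hn n (t ω)) (fun ω => (Z ω, a ω, x ω)) ≤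
          CH μ (fun ω => (hn n (t ω) / ((2 ^ (n - w) : ℕ) : ℤ), hn n (t ω)))
            (fun ω => (Z ω, a ω, x ω)) := by
        refine h2.1 _ _ _ _ μ _ _ _ hμ ?_
        intro ω ω' _ _ hh
        simp only [Prod.mk.injEq] at hh
        exact hh.1.2
      have d4 : CH μ (fun ω => hn n (t ω)) (fun ω => ((a ω, x ω), Z ω)) =
          CH μ (fun ω => hn n (t ω)) (fun ω => (Z ω, a ω, x ω)) := by
        refine cc_cond h2 hμ ?_ ?_
        · intro ω ω' _ _ hh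
          simp only [Prod.mk.injEq] at hh ⊢
          tauto
        · intro ω ω' _ _ hh
          simp only [Prod.mk.injEq] at hh ⊢
          tauto
      have d5 := hS.h1
      rw [d4] at d5
      have d6 : (1 - η) * (n : ℝ) = n - η * n := by ring
      rw [d6] at d5
      linarith) i
    rw [hlog] at e
    refine le_trans e ?_
    refine h2.2.1 _ _ _ _ μ' _ _ _ c1 ?_
    intro v v' _ _ hh
    simp only [Prod.mk.injEq] at hh
    exact hh.1

end Pool.Agent.Helper66.HK
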